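import Pool.Agent.W662.KKS.Stmts

/-!
Project KKS, task FFL: `FF` is almost bilinear.
-/

set_option autoImplicit false
set_option linter.unusedSectionVars false

open scoped InnerProductSpace
open Pool.Agent.Helper278 Pool.Agent.W662.KKS

namespace Pool.Agent.W462.KKS

variable {H : Type} [NormedAddCommGroup H] [InnerProductSpace ℂ H] [CompleteSpace H]

theorem smul_memM {M : VonNeumannAlgebra H} (z : ℂ) {x : H →L[ℂ] H} (hx : x ∈ M) : z • x ∈ M :=
  M.toStarSubalgebra.smul_mem hx z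

section c

variable {M : VonNeumannAlgebra H} {ξ : H} {ρ : (H →L[ℂ] H) → (H →L[ℂ] H)}
  {c : (H →L[ℂ] H) → (H →L[ℂ] H) → H} {T T' : (H →L[ℂ] H) → (H →L[ℂ] H)} {γ δ ε : ℝ}

theorem c_zero1 (hc : CD M ξ ρ c T T' γ δ ε) {a : H →L[ℂ] H} (ha : a ∈ M) : c 0 a = 0 := by
  have := hc.smul1 0 0 (zero_mem M) a ha
  simpa using this

theorem c_zero2 (hc : CD M ξ ρ c T T' γ δ ε) {x : H →L[ℂ] H} (hx : x ∈ M) : c x 0 = 0 := by
  have := hc.bd x hx 0 (zero_mem M)
  simpa using this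

theorem c_sum1 (hc : CD M ξ ρ c T T' γ δ ε) {ι : Type} (S : Finset ι) (z : ι → ℂ)
    (u : ι → H →L[ℂ] H) (hu : ∀ k, u k ∈ M) {a : H →L[ℂ] H} (ha : a ∈ M) :
    c (∑ k ∈ S, z k • u k) a = ∑ k ∈ S, z k • c (u k) a := by
  classical
  induction S using Finset.induction_on with
  | empty => simp [c_zero1 hc ha]
  | insert k S hk ih =>
    rw [Finset.sum_insert hk, Finset.sum_insert hk,
      hc.add1 _ (smul_memM _ (hu k)) _ (sum_mem fun j _ => smul_memM _ (hu j)) a ha,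
      hc.smul1 _ _ (hu k) a ha, ih]

theorem norm_smul_le_one {z : ℂ} {u : H →L[ℂ] H} (hz : ‖z‖ ≤ 1) (hu : ‖u‖ ≤ 1) : ‖z • u‖ ≤ 1 := by
  rw [norm_smul]
  calc ‖z‖ * ‖u‖ ≤ 1 * 1 := by gcongr
    _ = 1 := one_mul 1

theorem c_sum2 (hc : CD M ξ ρ c T T' γ δ ε) (hε : 0 ≤ ε) {ι : Type} (S : Finset ι) (z : ι → ℂ)
    (u : ι → H →L[ℂ] H) (hu : ∀ k, u k ∈ M) (hz : ∀ k, ‖z k‖ ≤ 1) (hu1 : ∀ k, ‖u k‖ ≤ 1)
    {x : H →L[ℂ] H} (hx : x ∈ M) :
    ‖c x (∑ k ∈ S, z k • u k) - ∑ k ∈ S, z k • c x (u k)‖ ≤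
      ε * ‖x‖ * (S.card * (S.card + 1)) := by
  classical
  induction S using Finset.induction_on with
  | empty => simp [c_zero2 hc hx]
  | insert k S hk ih =>
    rw [Finset.sum_insert hk, Finset.sum_insert hk, Finset.card_insert_of_notMem hk]
    have h1 := hc.add2 x hx _ (smul_memM (z k) (hu k)) (∑ j ∈ S, z j • u j)
      (sum_mem fun j _ => smul_memM _ (hu j))
    have h2 := hc.smul2 x hx (z k) _ (hu k)
    have h3 : ‖∑ j ∈ S, z j • u j‖ ≤ S.card := by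
      refine (norm_sum_le _ _).trans ?_
      refine (Finset.sum_le_sum fun j _ => norm_smul_le_one (hz j) (hu1 j)).trans ?_
      simp
    have h4 := norm_smul_le_one (hz k) (hu1 k)
    have h5 : ‖z k‖ * ‖u k‖ ≤ 1 := by rwa [norm_smul] at h4
    have hex : 0 ≤ ε * ‖x‖ := by positivity
    have h6 : ε * ‖x‖ * (‖z k • u k‖ + ‖∑ j ∈ S, z j • u j‖) ≤ ε * ‖x‖ * (1 + S.card) :=
      mul_le_mul_of_nonneg_left (add_le_add h4 h3) hex
    have h7 : ε * ‖x‖ * (‖z k‖ * ‖u k‖) ≤ ε * ‖x‖ * 1 := mul_le_mul_of_nonneg_left h5 hex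
    have e : c x (z k • u k + ∑ j ∈ S, z j • u j) - (z k • c x (u k) + ∑ j ∈ S, z j • c x (u j)) =
        (c x (z k • u k + ∑ j ∈ S, z j • u j) - c x (z k • u k) - c x (∑ j ∈ S, z j • u j)) +
        (c x (z k • u k) - z k • c x (u k)) +
        (c x (∑ j ∈ S, z j • u j) - ∑ j ∈ S, z j • c x (u j)) := by abel
    rw [e]
    refine (norm_add₃_le).trans ?_
    push_cast
    have hS : (0 : ℝ) ≤ S.card := Nat.cast_nonneg _
    nlinarith [mul_nonneg hex hS]

end c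

section mat

theorem me_mul (s t : Mat H) (a b : Fin 3) (x : H →L[ℂ] H) (p q : Fin 3) :
    mm s (mm (me a b x) t) p q = s p a * (x * t b q) := by
  unfold mm me
  rw [Finset.sum_eq_single a]
  · rw [Finset.sum_eq_single b]
    · simp
    · intro j _ hj
      simp [hj]
    · simp
  · intro j _ hj
    simp [hj]
  · simp

theorem mat_dec (s t : Mat H) (z : Fin 3 → Fin 3 → ℂ) (h : Mat H) (p q : Fin 3) :
    mm s (mm (fun i j => z i j • h i j) t) p q =
      ∑ k : Fin 3 × Fin 3, z k.1 k.2 • mm s (mm (me k.1 k.2 (h k.1 k.2)) t) p q := by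
  rw [Fintype.sum_prod_type]
  simp only [me_mul]
  unfold mm
  refine Finset.sum_congr rfl fun a _ => ?_
  rw [Finset.mul_sum]
  refine Finset.sum_congr rfl fun b _ => ?_
  rw [smul_mul_assoc, mul_smul_comm]

theorem mm_mem {M : VonNeumannAlgebra H} {X Y : Mat H} (hX : ∀ i k, X i k ∈ M)
    (hY : ∀ i k, Y i k ∈ M) (i k : Fin 3) : mm X Y i k ∈ M :=
  sum_mem fun j _ => mul_mem (hX i j) (hY j k)

theorem ms_mem {M : VonNeumannAlgebra H} {X : Mat H} (hX : ∀ i k, X i k ∈ M)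
    (i k : Fin 3) : ms X i k ∈ M := star_mem (hX k i)

theorem me_mem {M : VonNeumannAlgebra H} {x : H →L[ℂ] H} (hx : x ∈ M) (a b : Fin 3)
    (i k : Fin 3) : me a b x i k ∈ M := by
  unfold me
  split_ifs
  · exact hx
  · exact zero_mem M

theorem norm_le_one_of_isU {M : VonNeumannAlgebra H} {X : Mat H} (hX : IsU M X) (i k : Fin 3) :
    ‖X i k‖ ≤ 1 := by
  refine ContinuousLinearMap.opNorm_le_bound _ zero_le_one fun v => ?_
  rw [one_mul]
  have h1 : mm (ms X) X k k = 1 := by rw [hX.2.1]; simp [m1]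
  have h2 : ∑ j, ‖X j k v‖ ^ 2 = ‖v‖ ^ 2 := by
    have h3 : ((mm (ms X) X k k) v) = v := by rw [h1]; rfl
    have h4 : (⟪((mm (ms X) X k k) v), v⟫_ℂ).re = ‖v‖ ^ 2 := by
      rw [h3]
      rw [inner_self_eq_norm_sq_to_K]
      norm_cast
    rw [← h4]
    unfold mm ms
    rw [_root_.sum_apply, sum_inner, Complex.re_sum]
    refine Finset.sum_congr rfl fun j _ => ?_
    rw [mul_apply_eq_comp, ContinuousLinearMap.star_eq_adjoint,
      ContinuousLinearMap.adjoint_inner_left, inner_self_eq_norm_sq_to_K]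
    norm_cast
  have h5 : ‖X i k v‖ ^ 2 ≤ ‖v‖ ^ 2 := by
    rw [← h2]
    exact Finset.single_le_sum (f := fun j => ‖X j k v‖ ^ 2) (fun j _ => by positivity)
      (Finset.mem_univ i)
  exact le_of_sq_le_sq h5 (norm_nonneg _)

theorem norm_ms (X : Mat H) (i k : Fin 3) : ‖ms X i k‖ = ‖X k i‖ := norm_star _

theorem norm_mm_le {X Y : Mat H} {r r' : ℝ} (hr : 0 ≤ r) (hX : ∀ i k, ‖X i k‖ ≤ r)
    (hY : ∀ i k, ‖Y i k‖ ≤ r') (i k : Fin 3) : ‖mm X Y i k‖ ≤ 3 * (r * r') := by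
  unfold mm
  refine (norm_sum_le _ _).trans ?_
  refine (Finset.sum_le_sum (g := fun _ => r * r') fun j _ => ?_).trans ?_
  · refine (norm_mul_le _ _).trans ?_
    have := hX i j
    have := hY j k
    gcongr
  · simp

theorem k3_norm_le (v : K3 H) : ‖v‖ ≤ ∑ p : Fin 3 × Fin 3, ‖v p‖ := by
  have h1 := PiLp.norm_sq_eq_of_L2 (fun _ : Fin 3 × Fin 3 => H) v
  have h2 : (∑ p : Fin 3 × Fin 3, ‖v p‖ ^ 2) ≤ (∑ p : Fin 3 × Fin 3, ‖v p‖) ^ 2 := by
    rw [sq (∑ p : Fin 3 × Fin 3, ‖v p‖), Finset.sum_mul]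
    refine Finset.sum_le_sum fun p _ => ?_
    rw [sq]
    exact mul_le_mul_of_nonneg_left (Finset.single_le_sum (f := fun p => ‖v p‖)
      (fun q _ => norm_nonneg _) (Finset.mem_univ p)) (norm_nonneg _)
  rw [← h1] at h2
  exact le_of_sq_le_sq h2 (Finset.sum_nonneg fun p _ => norm_nonneg _)

theorem k3_norm_le' (v : K3 H) {C : ℝ} (h : ∀ i k, ‖v (i, k)‖ ≤ C) : ‖v‖ ≤ 9 * C := by
  refine (k3_norm_le v).trans ?_
  refine (Finset.sum_le_sum (g := fun _ => C) fun p _ => h p.1 p.2).trans ?_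
  simp

theorem k3_apply_le (v : K3 H) (p : Fin 3 × Fin 3) : ‖v p‖ ≤ ‖v‖ := PiLp.norm_apply_le v p

theorem Lm_norm {X : Mat H} (hX : ∀ i k, ‖X i k‖ ≤ 1) (v : K3 H) : ‖Lm X v‖ ≤ 27 * ‖v‖ := by
  refine (k3_norm_le' _ (C := 3 * ‖v‖) fun i k => ?_).trans (by linarith)
  rw [Lm_apply]
  refine (norm_sum_le _ _).trans ?_
  refine (Finset.sum_le_sum (g := fun _ => ‖v‖) fun j _ => ?_).trans ?_
  · refine ((X i j).le_opNorm _).trans ?_
    have h1 := hX i j
    have h2 := k3_apply_le v (j, k)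
    nlinarith [norm_nonneg v, norm_nonneg (v (j, k)), norm_nonneg (X i j)]
  · simp

theorem Rm_norm {M : VonNeumannAlgebra H} {ξ : H} {ρ : (H →L[ℂ] H) → (H →L[ℂ] H)} (hρ : Std M ξ ρ)
    {X : Mat H} (hM : ∀ i k, X i k ∈ M) (hX : ∀ i k, ‖X i k‖ ≤ 1) (v : K3 H) :
    ‖Rm ρ X v‖ ≤ 27 * ‖v‖ := by
  refine (k3_norm_le' _ (C := 3 * ‖v‖) fun i k => ?_).trans (by linarith)
  rw [Rm_apply]
  refine (norm_sum_le _ _).trans ?_
  refine (Finset.sum_le_sum (g := fun _ => ‖v‖) fun j _ => ?_).trans ?_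
  · refine ((ρ (X j k)).le_opNorm _).trans ?_
    have h1 := hX j k
    rw [← hρ.norm _ (hM j k)] at h1
    have h2 := k3_apply_le v (i, j)
    nlinarith [norm_nonneg v, norm_nonneg (v (i, j)), norm_nonneg (ρ (X j k))]
  · simp

end mat

section E

variable {I K : Type} [NormedAddCommGroup K] [InnerProductSpace ℂ K] {E : (I → K) → K}

theorem E_smul (hE : IsVMean E) (z : ℂ) (f : I → K) (C : ℝ) (hf : ∀ i, ‖f i‖ ≤ C) :
    E (fun i => z • f i) = z • E f := by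
  have := hE.clm (z • ContinuousLinearMap.id ℂ K) f C hf
  simpa using this

theorem E_sum (hE : IsVMean E) {ι : Type} (S : Finset ι) (z : ι → ℂ) (φ : ι → I → K) (C : ℝ)
    (hC0 : 0 ≤ C) (hC : ∀ k i, ‖φ k i‖ ≤ C) (hz : ∀ k, ‖z k‖ ≤ 1) :
    E (fun i => ∑ k ∈ S, z k • φ k i) = ∑ k ∈ S, z k • E (φ k) := by
  classical
  induction S using Finset.induction_on with
  | empty => simpa using hE.const 0
  | insert k S hk ih =>
    have hb : ∀ k i, ‖z k • φ k i‖ ≤ C := by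
      intro k i
      rw [norm_smul]
      calc ‖z k‖ * ‖φ k i‖ ≤ 1 * C := by gcongr; exacts [hz k, hC k i]
        _ = C := one_mul C
    have hS : (0 : ℝ) ≤ S.card := Nat.cast_nonneg _
    have h1 := hE.add (fun i => z k • φ k i) (fun i => ∑ j ∈ S, z j • φ j i) ((S.card + 1) * C)
      (fun i => (hb k i).trans (by nlinarith)) (fun i => by
        refine (norm_sum_le _ _).trans ?_
        refine (Finset.sum_le_sum fun j _ => hb j i).trans ?_
        simp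
        nlinarith)
    simp only [Finset.sum_insert hk]
    rw [h1, ih, E_smul hE _ _ C (hC k)]

theorem E_sub (hE : IsVMean E) (f g : I → K) (C : ℝ) (hf : ∀ i, ‖f i‖ ≤ C)
    (hg : ∀ i, ‖g i‖ ≤ C) : E (fun i => f i - g i) = E f - E g := by
  have h1 := hE.add f (fun i => (-1 : ℂ) • g i) C hf (fun i => by simpa using hg i)
  rw [E_smul hE _ _ C hg] at h1
  simp only [neg_smul, one_smul, ← sub_eq_add_neg] at h1
  exact h1

end E

section main

/-- the integrand of `FF` -/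
noncomputable def Ph (ρ : (H →L[ℂ] H) → (H →L[ℂ] H)) (c : (H →L[ℂ] H) → (H →L[ℂ] H) → H)
    (s t X Y : Mat H) : K3 H :=
  Lm (ms s) (Rm ρ s (cm c (mm s (mm X t)) (mm (ms t) (mm Y (ms s)))))

variable {M : VonNeumannAlgebra H} {ξ : H} {ρ : (H →L[ℂ] H) → (H →L[ℂ] H)}
  {c : (H →L[ℂ] H) → (H →L[ℂ] H) → H} {T T' : (H →L[ℂ] H) → (H →L[ℂ] H)} {γ δ ε : ℝ}

theorem Ph_bound (hρ : Std M ξ ρ) (hδ : 0 ≤ δ) (hc : CD M ξ ρ c T T' γ δ ε) {s t : Mat H}
    (hs : IsU M s) (ht : IsU M t) {X Y : Mat H} (hX : Ent M 1 X) (hY : Ent M 1 Y) :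
    ‖Ph ρ c s t X Y‖ ≤ 27 * (27 * (9 * (3 * (δ * 9 * 9)))) := by
  have hs1 : ∀ i k, ‖ms s i k‖ ≤ 1 := fun i k => by rw [norm_ms]; exact norm_le_one_of_isU hs k i
  have ht1 : ∀ i k, ‖ms t i k‖ ≤ 1 := fun i k => by rw [norm_ms]; exact norm_le_one_of_isU ht k i
  unfold Ph
  refine (Lm_norm hs1 _).trans ?_
  refine mul_le_mul_of_nonneg_left ?_ (by norm_num)
  refine (Rm_norm hρ hs.1 (norm_le_one_of_isU hs) _).trans ?_
  refine mul_le_mul_of_nonneg_left ?_ (by norm_num)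
  refine k3_norm_le' _ fun i k => ?_
  rw [cm_apply]
  refine (norm_sum_le _ _).trans ?_
  refine (Finset.sum_le_sum (g := fun _ => δ * 9 * 9) fun j _ => ?_).trans ?_
  · have m1 : mm s (mm X t) i j ∈ M := mm_mem hs.1 (mm_mem (fun a b => (hX a b).1) ht.1) i j
    have m2 : mm (ms t) (mm Y (ms s)) j k ∈ M :=
      mm_mem (ms_mem ht.1) (mm_mem (fun a b => (hY a b).1) (ms_mem hs.1)) j k
    refine (hc.bd _ m1 _ m2).trans ?_
    have n1 : ‖mm s (mm X t) i j‖ ≤ 9 := by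
      refine (norm_mm_le (r := 1) (r' := 3) zero_le_one (norm_le_one_of_isU hs) (fun a b => ?_)
        i j).trans (by norm_num)
      exact (norm_mm_le (r := 1) (r' := 1) zero_le_one (fun a b => (hX a b).2)
        (norm_le_one_of_isU ht) a b).trans (by norm_num)
    have n2 : ‖mm (ms t) (mm Y (ms s)) j k‖ ≤ 9 := by
      refine (norm_mm_le (r := 1) (r' := 3) zero_le_one ht1 (fun a b => ?_)
        j k).trans (by norm_num)
      exact (norm_mm_le (r := 1) (r' := 1) zero_le_one (fun a b => (hY a b).2)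
        hs1 a b).trans (by norm_num)
    gcongr
  · simp

theorem ent_me {X : Mat H} (hX : Ent M 1 X) (a b : Fin 3) : Ent M 1 (me a b (X a b)) := by
  intro i k
  refine ⟨me_mem (hX a b).1 a b i k, ?_⟩
  unfold me
  split_ifs
  · exact (hX a b).2
  · simp

theorem ent_smul {z : Fin 3 → Fin 3 → ℂ} (hz : ∀ i j, ‖z i j‖ ≤ 1) {X : Mat H} (hX : Ent M 1 X) :
    Ent M 1 (fun i j => z i j • X i j) :=
  fun i k => ⟨smul_memM _ (hX i k).1, norm_smul_le_one (hz i k) (hX i k).2⟩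

/-- the integrand is linear in the first argument -/
theorem Ph_lin (hc : CD M ξ ρ c T T' γ δ ε) {s t : Mat H}
    (hs : IsU M s) (ht : IsU M t) {h Y : Mat H} (hh : Ent M 1 h) (hY : Ent M 1 Y)
    (z : Fin 3 → Fin 3 → ℂ) :
    Ph ρ c s t (fun i j => z i j • h i j) Y =
      ∑ k : Fin 3 × Fin 3, z k.1 k.2 • Ph ρ c s t (me k.1 k.2 (h k.1 k.2)) Y := by
  have key : cm c (mm s (mm (fun i j => z i j • h i j) t)) (mm (ms t) (mm Y (ms s))) =
      ∑ k : Fin 3 × Fin 3, z k.1 k.2 •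
        cm c (mm s (mm (me k.1 k.2 (h k.1 k.2)) t)) (mm (ms t) (mm Y (ms s))) := by
    refine PiLp.ext fun p => ?_
    obtain ⟨i, k⟩ := p
    have e : (∑ k : Fin 3 × Fin 3, z k.1 k.2 •
        cm c (mm s (mm (me k.1 k.2 (h k.1 k.2)) t)) (mm (ms t) (mm Y (ms s)))) (i, k) =
        ∑ l : Fin 3 × Fin 3, z l.1 l.2 •
        (cm c (mm s (mm (me l.1 l.2 (h l.1 l.2)) t)) (mm (ms t) (mm Y (ms s)))) (i, k) := by
      simp
    rw [e, cm_apply]
    simp only [cm_apply, Finset.smul_sum]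
    rw [Finset.sum_comm]
    refine Finset.sum_congr rfl fun j _ => ?_
    rw [mat_dec]
    exact c_sum1 hc _ (fun k : Fin 3 × Fin 3 => z k.1 k.2) _
      (fun l => mm_mem hs.1 (mm_mem (me_mem (hh _ _).1 _ _) ht.1) i j)
      (mm_mem (ms_mem ht.1) (mm_mem (fun a b => (hY a b).1) (ms_mem hs.1)) j k)
  unfold Ph
  rw [key, map_sum, map_sum]
  refine Finset.sum_congr rfl fun k _ => ?_
  rw [map_smul, map_smul]

/-- the integrand is almost linear in the second argument -/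
theorem Ph_alin (hρ : Std M ξ ρ) (hε : 0 ≤ ε) (hc : CD M ξ ρ c T T' γ δ ε) {s t : Mat H}
    (hs : IsU M s) (ht : IsU M t) {X h : Mat H} (hX : Ent M 1 X) (hh : Ent M 1 h)
    (z : Fin 3 → Fin 3 → ℂ) (hz : ∀ i j, ‖z i j‖ ≤ 1) :
    ‖Ph ρ c s t X (fun i j => z i j • h i j) -
      ∑ k : Fin 3 × Fin 3, z k.1 k.2 • Ph ρ c s t X (me k.1 k.2 (h k.1 k.2))‖ ≤
      27 * (27 * (9 * (3 * (ε * 9 * (9 * (9 + 1)))))) := by
  have hs1 : ∀ i k, ‖ms s i k‖ ≤ 1 := fun i k => by rw [norm_ms]; exact norm_le_one_of_isU hs k i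
  have ht1 : ∀ i k, ‖ms t i k‖ ≤ 1 := fun i k => by rw [norm_ms]; exact norm_le_one_of_isU ht k i
  have e0 : Ph ρ c s t X (fun i j => z i j • h i j) -
      ∑ k : Fin 3 × Fin 3, z k.1 k.2 • Ph ρ c s t X (me k.1 k.2 (h k.1 k.2)) =
      Lm (ms s) (Rm ρ s (cm c (mm s (mm X t)) (mm (ms t) (mm (fun i j => z i j • h i j) (ms s))) -
        ∑ k : Fin 3 × Fin 3, z k.1 k.2 •
          cm c (mm s (mm X t)) (mm (ms t) (mm (me k.1 k.2 (h k.1 k.2)) (ms s))))) := by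
    unfold Ph
    rw [map_sub, map_sub, map_sum, map_sum]
    congr 1
    refine Finset.sum_congr rfl fun k _ => ?_
    rw [map_smul, map_smul]
  rw [e0]
  refine (Lm_norm hs1 _).trans ?_
  refine mul_le_mul_of_nonneg_left ?_ (by norm_num)
  refine (Rm_norm hρ hs.1 (norm_le_one_of_isU hs) _).trans ?_
  refine mul_le_mul_of_nonneg_left ?_ (by norm_num)
  refine k3_norm_le' _ fun i k => ?_
  have e : (cm c (mm s (mm X t)) (mm (ms t) (mm (fun i j => z i j • h i j) (ms s))) -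
        ∑ k : Fin 3 × Fin 3, z k.1 k.2 •
          cm c (mm s (mm X t)) (mm (ms t) (mm (me k.1 k.2 (h k.1 k.2)) (ms s)))) (i, k) =
      ∑ j, (c (mm s (mm X t) i j) (∑ l : Fin 3 × Fin 3, z l.1 l.2 •
        mm (ms t) (mm (me l.1 l.2 (h l.1 l.2)) (ms s)) j k) -
        ∑ l : Fin 3 × Fin 3, z l.1 l.2 •
          c (mm s (mm X t) i j) (mm (ms t) (mm (me l.1 l.2 (h l.1 l.2)) (ms s)) j k)) := by
    have e1 : (∑ k : Fin 3 × Fin 3, z k.1 k.2 •
          cm c (mm s (mm X t)) (mm (ms t) (mm (me k.1 k.2 (h k.1 k.2)) (ms s)))) (i, k) =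
        ∑ l : Fin 3 × Fin 3, z l.1 l.2 •
        (cm c (mm s (mm X t)) (mm (ms t) (mm (me l.1 l.2 (h l.1 l.2)) (ms s)))) (i, k) := by
      simp
    rw [PiLp.sub_apply, e1]
    simp only [cm_apply, Finset.smul_sum]
    rw [Finset.sum_sub_distrib]
    congr 1
    · refine Finset.sum_congr rfl fun j _ => ?_
      rw [mat_dec]
    · rw [Finset.sum_comm]
  rw [e]
  refine (norm_sum_le _ _).trans ?_
  refine (Finset.sum_le_sum (g := fun _ => ε * 9 * (9 * (9 + 1))) fun j _ => ?_).trans ?_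
  · have m1 : mm s (mm X t) i j ∈ M := mm_mem hs.1 (mm_mem (fun a b => (hX a b).1) ht.1) i j
    have n1 : ‖mm s (mm X t) i j‖ ≤ 9 := by
      refine (norm_mm_le (r := 1) (r' := 3) zero_le_one (norm_le_one_of_isU hs) (fun a b => ?_)
        i j).trans (by norm_num)
      exact (norm_mm_le (r := 1) (r' := 1) zero_le_one (fun a b => (hX a b).2)
        (norm_le_one_of_isU ht) a b).trans (by norm_num)
    have h1 := c_sum2 hc hε Finset.univ (fun k : Fin 3 × Fin 3 => z k.1 k.2)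
      (fun l : Fin 3 × Fin 3 => mm (ms t) (mm (me l.1 l.2 (h l.1 l.2)) (ms s)) j k)
      (fun l => mm_mem (ms_mem ht.1) (mm_mem (me_mem (hh _ _).1 _ _) (ms_mem hs.1)) j k)
      (fun k => hz _ _) (fun l => by
        rw [me_mul]
        refine (norm_mul_le _ _).trans ?_
        have a1 := ht1 j l.1
        have a2 : ‖h l.1 l.2 * ms s l.2 k‖ ≤ 1 := by
          refine (norm_mul_le _ _).trans ?_
          have a3 := (hh l.1 l.2).2
          have a4 := hs1 l.2 k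
          calc _ ≤ (1 : ℝ) * 1 := by gcongr
            _ = 1 := one_mul 1
        calc _ ≤ (1 : ℝ) * 1 := by gcongr
          _ = 1 := one_mul 1) m1
    refine h1.trans ?_
    have hcard : ((Finset.univ : Finset (Fin 3 × Fin 3)).card : ℝ) = 9 := by
      simp
    rw [hcard]
    gcongr
  · simp

theorem ffl : S_FFL := by
  refine ⟨9 * (27 * (27 * (9 * (3 * (9 * (9 * (9 + 1))))))), by norm_num, ?_⟩
  intro H _ _ _ M ξ ρ c T T' γ δ ε hρ _ hδ hε hc I s t E hE _ hs ht z z' h h' hz hz' hh hh'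
  have hFF : ∀ X Y : Mat H, FF ρ c s t E X Y = E (fun i => Ph ρ c (s i) (t i) X Y) := fun _ _ => rfl
  set B : ℝ := 27 * (27 * (9 * (3 * (δ * 9 * 9)))) with hB
  have hB0 : 0 ≤ B := by positivity
  -- the first argument
  have h1 : FF ρ c s t E (fun i j => z i j • h i j) (fun i j => z' i j • h' i j) =
      ∑ k : Fin 3 × Fin 3, z k.1 k.2 •
        FF ρ c s t E (me k.1 k.2 (h k.1 k.2)) (fun i j => z' i j • h' i j) := by
    simp only [hFF]
    rw [← E_sum hE Finset.univ (fun k : Fin 3 × Fin 3 => z k.1 k.2)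
      (fun k i => Ph ρ c (s i) (t i) (me k.1 k.2 (h k.1 k.2)) (fun i j => z' i j • h' i j)) B hB0
      (fun k i => Ph_bound hρ hδ hc (hs i) (ht i) (ent_me hh _ _) (ent_smul hz' hh'))
      (fun k => hz _ _)]
    congr 1
    funext i
    exact Ph_lin hc (hs i) (ht i) hh (ent_smul hz' hh') z
  -- the second argument
  have h2 : ∀ X : Mat H, Ent M 1 X → ‖FF ρ c s t E X (fun i j => z' i j • h' i j) -
      ∑ l : Fin 3 × Fin 3, z' l.1 l.2 • FF ρ c s t E X (me l.1 l.2 (h' l.1 l.2))‖ ≤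
      27 * (27 * (9 * (3 * (ε * 9 * (9 * (9 + 1)))))) := by
    intro X hX
    simp only [hFF]
    rw [← E_sum hE Finset.univ (fun k : Fin 3 × Fin 3 => z' k.1 k.2)
      (fun k i => Ph ρ c (s i) (t i) X (me k.1 k.2 (h' k.1 k.2))) B hB0
      (fun k i => Ph_bound hρ hδ hc (hs i) (ht i) hX (ent_me hh' _ _))
      (fun k => hz' _ _)]
    rw [← E_sub hE _ _ (9 * B) (fun i => (Ph_bound hρ hδ hc (hs i) (ht i) hX
      (ent_smul hz' hh')).trans (by linarith)) (fun i => by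
        refine (norm_sum_le _ _).trans ?_
        refine (Finset.sum_le_sum (g := fun _ => B) fun k _ => ?_).trans ?_
        · rw [norm_smul]
          have a1 := Ph_bound hρ hδ hc (hs i) (ht i) hX (ent_me hh' k.1 k.2)
          have a2 := hz' k.1 k.2
          calc _ ≤ 1 * B := by gcongr
            _ = B := one_mul B
        · simp)]
    exact hE.bound _ _ fun i => Ph_alin hρ hε hc (hs i) (ht i) hX hh' z' hz'
  have h3 : (∑ i, ∑ j, ∑ k, ∑ l, (z i j * z' k l) •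
      FF ρ c s t E (me i j (h i j)) (me k l (h' k l))) =
      ∑ k : Fin 3 × Fin 3, z k.1 k.2 • ∑ l : Fin 3 × Fin 3, z' l.1 l.2 •
        FF ρ c s t E (me k.1 k.2 (h k.1 k.2)) (me l.1 l.2 (h' l.1 l.2)) := by
    simp only [Fintype.sum_prod_type, Finset.smul_sum, smul_smul]
  rw [h3, h1, ← Finset.sum_sub_distrib]
  simp only [← smul_sub]
  refine (norm_sum_le _ _).trans ?_
  refine (Finset.sum_le_sum (g := fun _ => 27 * (27 * (9 * (3 * (ε * 9 * (9 * (9 + 1)))))))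
    fun k _ => ?_).trans ?_
  · rw [norm_smul]
    have a1 := h2 _ (ent_me hh k.1 k.2)
    have a2 := hz k.1 k.2
    calc _ ≤ 1 * (27 * (27 * (9 * (3 * (ε * 9 * (9 * (9 + 1))))))) := by gcongr
      _ = _ := one_mul _
  · simp
    linarith

end main

end Pool.Agent.W462.KKS
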