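import Pool.Agent.W662.KKS.Stmts
import Pool.Agent.Helper278.RGNC
import Pool.Agent.Helper278.Factor
import Pool.Agent.Helper278.GroupMain

/-!
Project KKS, task HALF: a projection of trace one half, equivalent to its complement.
-/

set_option autoImplicit false

open scoped InnerProductSpace
open Pool.Agent.Helper278 Pool.Agent.W662.KKS

namespace Pool.Agent.W462.KKS

theorem half : S_HALF := by
  intro H _ _ _ M ξ h
  let T := mkState M _ h.normal h.trace
  have hd : IsDiffuse M := diffuse_of_factor T h.center h.infinite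
  have hL := lyapProp T hd
  obtain ⟨p, hp, hpt⟩ := RG.exists_proj_trace (trAlg T) hL (1 / 2) (by norm_num) (by norm_num)
  have hp1 : star p = p := hp.isSelfAdjoint
  have hpp : p * p = p := hp.isIdempotentElem
  obtain ⟨v, hv1, hv2⟩ := exists_equiv T h.center p (1 - p) hp1 hpp
    (by rw [star_sub, star_one, hp1])
    (by rw [mul_sub, sub_mul, sub_mul, one_mul, mul_one, one_mul, hpp, sub_self, sub_zero])
    (by rw [map_sub, T.map_one, hpt]; push_cast; norm_num)
  refine ⟨p, p.2, v, v.2, congrArg Subtype.val hp1, congrArg Subtype.val hpp, ?_,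
    congrArg Subtype.val hv1, congrArg Subtype.val hv2⟩
  have h2 : T.τ p = ⟪ξ, (p : H →L[ℂ] H) ξ⟫_ℂ := rfl
  rw [← h2, hpt]
  push_cast
  norm_num

end Pool.Agent.W462.KKS
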